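import Pool.Agent.Q122.WS.Fixed

set_option autoImplicit false

/-!
# The composite values of a polynomial which have no small witness

At most `O(x ^ (1 / 2 + ε))` composite numbers up to `x` have no witness `1 < b ≤ 2 (log n) ^ 2`
(starting theorem `SquareRootExceptions`).  This says nothing about sets with `x ^ (1 / 2)` elements,
like the numbers `t ^ 2 + 1` or the integers of an interval of length `x ^ (1 / 2)`.  Here such thin
sets are treated, unconditionally.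

(1) Let `A ≥ 2` and `0 < θ < A + 1`.  For all integer polynomials `f`, primitive and squarefree over
`ℚ`, of degree between `1` and `D`, and all intervals `(B, B + T]` such that the coefficients of `f`
and `|B|` are at most `T ^ (1 / τ)` and the values `f(t)` on the interval are at most `T ^ θ`: all
but at most `K T ^ (E + ε)` of the composite values `f(t)` have a witness `1 < b ≤ 2 (log n) ^ A`,
where `E = max ((A + 1) / (2 A)) ((θ (A - 1) + (A + 1)) / (A (A + 1))) < 1` and `K` depends only on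
`D, A, θ, τ, ε`.  For `A = 2`, the range of the question, `E = max (3 / 4) ((θ + 3) / 6)`, `θ < 3`:
so nearly all composite integers of an interval of length `H ≥ x ^ (1 / 3 + δ)` at `x` (take
`f = X`), of an arithmetic progression with `H ≥ x ^ (1 / 3 + δ)` terms up to `x`, and nearly all
composite values of quadratic polynomials at `T` consecutive integers, `T ≥ x ^ (1 / 3 + δ)`, where
`x` is the size of the values, have a witness in the range of the question.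

(2) Let `f` be any integer polynomial of degree `d`, `1 ≤ d < A + 1`.  All but `K T ^ (E + ε)` of the
integers `|t| ≤ T` for which `f(t)` is composite are such that `f(t)` has a witness
`1 < b ≤ 2 (log f(t)) ^ A`, where `θ = d` in `E`.  For `d = A = 2`, for instance for the numbers
`t ^ 2 + 1`, there are at most `K T ^ (5 / 6 + ε)` exceptions.
-/

namespace Pool.Agent.Results.MP_0b15c0_nt.CompositeValuesOfPolynomials

open Polynomial

/-- `n` fails the strong test for the base `b`: writing `n - 1 = 2 ^ j * d` with `d` odd, neither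
`b ^ d = 1` nor `b ^ (2 ^ i * d) = -1` for some `i < j`, modulo `n`. -/
def IsWitness (n b : ℕ) : Prop :=
  ∀ j d : ℕ, n - 1 = 2 ^ j * d → Odd d →
    (b : ZMod n) ^ d ≠ 1 ∧ ∀ i : ℕ, i < j → (b : ZMod n) ^ (2 ^ i * d) ≠ -1

/-- `v` is a composite positive integer without a witness `1 < b ≤ 2 (log v) ^ A` -/
def Bad (A : ℝ) (v : ℤ) : Prop := ∃ n : ℕ, v = n ∧ 2 ≤ n ∧ ¬ n.Prime ∧
  ¬ ∃ b : ℕ, 1 < b ∧ (b : ℝ) ≤ 2 * (Real.log n) ^ A ∧ IsWitness n b

/-- the exponent `E` -/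
noncomputable def expo (A θ : ℝ) : ℝ :=
  max ((A + 1) / (2 * A)) ((θ * (A - 1) + (A + 1)) / (A * (A + 1)))

/-- `f` is primitive, squarefree over `ℚ`, of degree between `1` and `D`, and its coefficients and
`|B|` are at most `T ^ (1 / τ)`. -/
def Allowed (D : ℕ) (τ : ℝ) (f : ℤ[X]) (B : ℤ) (T : ℕ) : Prop :=
  1 ≤ f.natDegree ∧ f.natDegree ≤ D ∧ f.IsPrimitive ∧ Squarefree (f.map (Int.castRingHom ℚ)) ∧
    (∀ i, |(f.coeff i : ℝ)| ^ τ ≤ T) ∧ |(B : ℝ)| ^ τ ≤ T

open Pool.Agent.W57.SW Pool.Agent.H379R2.W in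
theorem bd_of {A : ℝ} {v : ℤ} (h : Bad A v) : ∃ n : ℕ, v = n ∧ Bd A n := by
  obtain ⟨n, h1, h2, h3, h4⟩ := h
  refine ⟨n, h1, h2, h3, fun b hb1 hb2 => ?_⟩
  by_contra hp
  apply h4
  refine ⟨b, hb1, hb2, fun j d hjd hd => ⟨fun e => ?_, fun i hi e => ?_⟩⟩
  · exact hp ⟨j, d, hjd, hd, Or.inl e⟩
  · exact hp ⟨j, d, hjd, hd, Or.inr ⟨i, hi, e⟩⟩

theorem prim {f : ℤ[X]} (h : f.IsPrimitive) (p : ℕ) (hp : p.Prime) :
    ∃ i, ¬ (p : ℤ) ∣ f.coeff i := by
  by_contra hcon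
  push Not at hcon
  have h1 : C (p : ℤ) ∣ f := (C_dvd_iff_dvd_coeff _ _).2 hcon
  have h2 := h _ h1
  have h3 : Prime (p : ℤ) := Nat.prime_iff_prime_int.1 hp
  exact h3.not_unit h2

open scoped Classical in
theorem result :
    (∀ (D : ℕ) (A θ τ ε : ℝ), 1 ≤ D → 2 ≤ A → 0 < θ → θ < A + 1 → 0 < τ → 0 < ε →
      ∃ K : ℝ, ∀ (f : ℤ[X]) (B : ℤ) (T : ℕ), 1 ≤ T → Allowed D τ f B T →
        (∀ t : ℤ, B < t → t ≤ B + T → ((f.eval t : ℤ) : ℝ) ≤ (T : ℝ) ^ θ) →
        {t : ℤ | B < t ∧ t ≤ B + T ∧ Bad A (f.eval t)}.Finite ∧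
          ({t : ℤ | B < t ∧ t ≤ B + T ∧ Bad A (f.eval t)}.ncard : ℝ) ≤
            K * (T : ℝ) ^ (expo A θ + ε)) ∧
    (∀ (f : ℤ[X]) (A ε : ℝ), 2 ≤ A → 1 ≤ f.natDegree → (f.natDegree : ℝ) < A + 1 → 0 < ε →
      ∃ K : ℝ, ∀ T : ℕ, 1 ≤ T → {t : ℤ | |t| ≤ T ∧ Bad A (f.eval t)}.Finite ∧
        ({t : ℤ | |t| ≤ T ∧ Bad A (f.eval t)}.ncard : ℝ) ≤
          K * (T : ℝ) ^ (expo A f.natDegree + ε)) := by
  constructor
  · intro D A θ τ ε hD hA hθ hθA hτ hε
    obtain ⟨K, -, h⟩ := Pool.Agent.Q122.WS.main D A θ τ ε hD hA hθ hθA hτ hε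
    refine ⟨K, ?_⟩
    rintro f B T hT ⟨h1, h2, h3, h4, h5, h6⟩ h7
    have h8 := h f B T hT h1 h2 h4 (prim h3) h5 h6 (fun t ht => by
      rw [Finset.mem_Ioc] at ht
      exact h7 t ht.1 ht.2)
    have hsub : {t : ℤ | B < t ∧ t ≤ B + T ∧ Bad A (f.eval t)} ⊆
        (((Finset.Ioc B (B + T)).filter (fun t => ∃ n : ℕ, f.eval t = n ∧
          Pool.Agent.W57.SW.Bd A n) : Finset ℤ) : Set ℤ) := by
      rintro t ⟨t1, t2, t3⟩
      rw [Finset.mem_coe, Finset.mem_filter, Finset.mem_Ioc]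
      exact ⟨⟨t1, t2⟩, bd_of t3⟩
    refine ⟨(Finset.finite_toSet _).subset hsub, le_trans ?_ h8⟩
    have h9 := Set.ncard_le_ncard hsub (Finset.finite_toSet _)
    rw [Set.ncard_coe_finset] at h9
    exact_mod_cast h9
  · intro f A ε hA h1 h2 hε
    obtain ⟨K, -, h⟩ := Pool.Agent.Q122.WS.fixed f A ε hA h1 h2 hε
    refine ⟨K, ?_⟩
    intro T hT
    have h8 := h T hT
    have hsub : {t : ℤ | |t| ≤ T ∧ Bad A (f.eval t)} ⊆
        (((Finset.Icc (-(T : ℤ)) T).filter (fun t => ∃ n : ℕ, f.eval t = n ∧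
          Pool.Agent.W57.SW.Bd A n) : Finset ℤ) : Set ℤ) := by
      rintro t ⟨t1, t3⟩
      rw [Finset.mem_coe, Finset.mem_filter, Finset.mem_Icc]
      exact ⟨abs_le.1 t1, bd_of t3⟩
    refine ⟨(Finset.finite_toSet _).subset hsub, le_trans ?_ h8⟩
    have h9 := Set.ncard_le_ncard hsub (Finset.finite_toSet _)
    rw [Set.ncard_coe_finset] at h9
    exact_mod_cast h9

end Pool.Agent.Results.MP_0b15c0_nt.CompositeValuesOfPolynomials
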