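import Pool.Agent.TH55.SO.Fin

/-!
# The strong pseudoprimality test for integers with a large prime factor

Unconditionally, every sufficiently large composite `n` which has a prime factor `p ≥ n^(2/3)` has a witness
`1 < b ≤ 2 (log n)^2` for the strong pseudoprimality test; no such `n` is excluded. With `2 (log n)^A` in place of
`2 (log n)^2` this holds as soon as `p ≥ n^(A/(2A-1)+ε)`, so that a prime factor `p ≥ n^(1/2+ε)` gives a witness up to a
fixed power of `log n`. In general a composite number without small witnesses is nearly a Carmichael number: the number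
`gcd (p - 1, n - 1)` is large for EVERY prime factor `p`.

Proof. If `n` passes the test for all `b ≤ y`, then `b^(n-1) = 1` modulo `p` for these `b`, and therefore for all
products of such `b`. So the number of integers up to `p` without prime factors above `y` is at most
`gcd (p - 1, n - 1)`, which is `gcd (p - 1, n / p - 1) < n / p`.
-/

set_option autoImplicit false

namespace Pool.Agent.Results.MP_0b15c0_nt.LargePrimeFactor

open Real
open Pool.Agent.W57.SW Pool.Agent.H379R2.W Pool.Agent.TH55.SO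

/-- `n` fails the strong test for the base `b`: writing `n - 1 = 2 ^ j * d` with `d` odd, neither
`b ^ d = 1` nor `b ^ (2 ^ i * d) = -1` for some `i < j`, modulo `n`. -/
def IsWitness (n b : ℕ) : Prop :=
  ∀ j d : ℕ, n - 1 = 2 ^ j * d → Odd d →
    (b : ZMod n) ^ d ≠ 1 ∧ ∀ i : ℕ, i < j → (b : ZMod n) ^ (2 ^ i * d) ≠ -1

/-- `n` has a witness `1 < b ≤ 2 (log n)^A` -/
def HasWitness (A : ℝ) (n : ℕ) : Prop :=
  ∃ b : ℕ, 1 < b ∧ (b : ℝ) ≤ 2 * (log n) ^ A ∧ IsWitness n b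

lemma bd_of_not {A : ℝ} {n : ℕ} (h2 : 2 ≤ n) (hp : ¬ n.Prime) (h : ¬ HasWitness A n) : Bd A n := by
  refine ⟨h2, hp, fun b hb1 hb2 => ?_⟩
  by_contra hb
  exact h ⟨b, hb1, hb2, fun j d hjd hd => ⟨fun e => hb ⟨j, d, hjd, hd, Or.inl e⟩,
      fun i hi e => hb ⟨j, d, hjd, hd, Or.inr ⟨i, hi, e⟩⟩⟩⟩

/-- the greatest common divisor is smaller than the cofactor -/
lemma gcd_lt {n p : ℕ} (hn : 2 ≤ n) (hnp : ¬ n.Prime) (hp : p.Prime) (hpn : p ∣ n) :
    (Nat.gcd (p - 1) (n - 1) : ℝ) * p ≤ n := by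
  obtain ⟨m, rfl⟩ := hpn
  have hm2 : 2 ≤ m := by
    by_contra h
    have : m = 0 ∨ m = 1 := by omega
    rcases this with h | h
    · subst h; simp at hn
    · subst h; exact hnp (by simpa using hp)
  have h5 : Nat.gcd (p - 1) (p * m - 1) = Nat.gcd (p - 1) (m - 1) := by
    have e1 : p * m - 1 = (m - 1) + (p - 1) * m := by
      obtain ⟨q', rfl⟩ : ∃ q', p = q' + 1 := ⟨p - 1, by have := hp.two_le; omega⟩
      obtain ⟨m', rfl⟩ : ∃ m', m = m' + 1 := ⟨m - 1, by omega⟩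
      simp only [Nat.add_sub_cancel]
      rw [show (q' + 1) * (m' + 1) = m' + q' * (m' + 1) + 1 by ring]
      omega
    rw [e1, Nat.gcd_add_mul_left_right]
  have h6 : Nat.gcd (p - 1) (p * m - 1) ≤ m := by
    rw [h5]
    exact (Nat.gcd_le_right _ (by omega)).trans (by omega)
  have h7 : Nat.gcd (p - 1) (p * m - 1) * p ≤ p * m := by
    rw [mul_comm p m]; rw [mul_comm p m] at h6; exact Nat.mul_le_mul_right _ h6
  exact_mod_cast h7

/-- all prime factors of a large number without small witnesses are large -/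
lemma prime_large {A : ℝ} (hA : 2 ≤ A) (D : ℕ) : ∃ N : ℕ, 3 ≤ N ∧ ∀ n : ℕ, N ≤ n → Bd A n →
    ∀ p : ℕ, p.Prime → p ∣ n → D ≤ p := by
  have h1 : ∀ᶠ x : ℝ in Filter.atTop, (D : ℝ) ≤ log x :=
    tendsto_log_atTop.eventually (Filter.eventually_ge_atTop _)
  obtain ⟨Y, hY⟩ := Filter.eventually_atTop.mp h1
  refine ⟨max 3 ⌈Y⌉₊, le_max_left _ _, fun n hn hb p hp hpn => ?_⟩
  have hn3 : 3 ≤ n := (le_max_left _ _).trans hn
  have a1 := hY n (Nat.ceil_le.mp ((le_max_right _ _).trans hn))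
  have hlarge := bd_prime_large hb hp hpn
  have hsq := sq_le_rpow hA hn3
  have h1 := one_le_log hn3
  have e1 : (D : ℝ) ≤ p := by nlinarith
  exact_mod_cast e1

/-- the bound for prime factors with `log p ≤ (log n)^θ` -/
lemma partA (A θ ε : ℝ) (hA : 2 ≤ A) (hθ : 0 < θ) (hθ1 : θ ≤ 1) (hε : 0 < ε) :
    ∃ n₀ : ℕ, ∀ n : ℕ, n₀ ≤ n → ¬ n.Prime → ∀ p : ℕ, p.Prime → p ∣ n → log p ≤ (log n) ^ θ →
      (Nat.gcd (p - 1) (n - 1) : ℝ) ≤ (p : ℝ) ^ (1 - θ / A - ε) → HasWitness A n := by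
  obtain ⟨D0, hD0⟩ := group2 A θ (ε / 2) hθ (by linarith) (by positivity)
  obtain ⟨N, hN3, hN⟩ := prime_large hA (max D0 2)
  refine ⟨N, fun n hn hnp p hp hpn hlog hg => ?_⟩
  have hn2 : 2 ≤ n := by omega
  by_contra hW
  have hb := bd_of_not hn2 hnp hW
  have hDp := hN n hn hb p hp hpn
  have h1 := hD0 n (n - 1) 0 p hn2 (by omega) hp hpn ((le_max_left _ _).trans hDp) hlog
    (fun b hb1 hb2 => by
      rw [pow_zero, one_mul]
      exact pow_of_passes (hb.2.2 b hb1 hb2))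
  rw [pow_zero, one_mul] at h1
  have hp1 : (1 : ℝ) < p := by exact_mod_cast hp.one_lt
  have h2 : (p : ℝ) ^ (1 - θ / A - ε) < (p : ℝ) ^ (1 - θ / A - ε / 2) :=
    rpow_lt_rpow_of_exponent_lt hp1 (by linarith)
  linarith

/-- the sharper bound for the range `2 (log n)^2` -/
lemma partB : ∃ n₀ : ℕ, ∀ n : ℕ, n₀ ≤ n → ¬ n.Prime → ∀ p : ℕ, p.Prime → p ∣ n →
      (Nat.gcd (p - 1) (n - 1) : ℝ) ^ 2 < (p : ℝ) * exp (log p / (2 * log (log p))) →
      HasWitness 2 n := by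
  obtain ⟨D0, hD0⟩ := group1
  obtain ⟨N, hN3, hN⟩ := prime_large le_rfl (max D0 2)
  refine ⟨N, fun n hn hnp p hp hpn hg => ?_⟩
  have hn2 : 2 ≤ n := by omega
  by_contra hW
  have hb := bd_of_not hn2 hnp hW
  have hDp := hN n hn hb p hp hpn
  have h1 := hD0 n (n - 1) 0 p hn2 (by omega) hp hpn ((le_max_left _ _).trans hDp)
    (fun b hb1 hb2 => by
      rw [pow_zero, one_mul]
      exact pow_of_passes (hb.2.2 b hb1 (by rw [rpow_two]; exact hb2)))
  rw [pow_zero, one_mul] at h1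
  linarith

/-- **The strong test for numbers with a large prime factor.** `HasWitness A n` says that some `b` with
`1 < b ≤ 2 (log n)^A` is a witness for `n`; the range of the question is `A = 2`.
(1) Every large composite `n` with a prime factor `p ≥ n^(2/3)` has a witness `1 < b ≤ 2 (log n)^2`.
(2) More generally this holds if `gcd (p - 1, n - 1)² < p exp (log p / (2 log log p))` for at least one prime factor
`p` of `n`.
(3) Let `A ≥ 2` and `ε > 0`. Every large composite `n` with a prime factor `p ≥ n^(A/(2A-1)+ε)` has a witness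
`1 < b ≤ 2 (log n)^A`.
(4) Let `A ≥ 2`, `0 < θ ≤ 1` and `ε > 0`. Every large composite `n` with a prime factor `p` such that
`log p ≤ (log n)^θ` and `gcd (p - 1, n - 1) ≤ p^(1-θ/A-ε)` has a witness `1 < b ≤ 2 (log n)^A`. -/
theorem result :
    (∃ n₀ : ℕ, ∀ n : ℕ, n₀ ≤ n → ¬ n.Prime → ∀ p : ℕ, p.Prime → p ∣ n →
      (n : ℝ) ^ (2 / 3 : ℝ) ≤ p → HasWitness 2 n) ∧
    (∃ n₀ : ℕ, ∀ n : ℕ, n₀ ≤ n → ¬ n.Prime → ∀ p : ℕ, p.Prime → p ∣ n →
      (Nat.gcd (p - 1) (n - 1) : ℝ) ^ 2 < (p : ℝ) * exp (log p / (2 * log (log p))) →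
      HasWitness 2 n) ∧
    (∀ A ε : ℝ, 2 ≤ A → 0 < ε → ∃ n₀ : ℕ, ∀ n : ℕ, n₀ ≤ n → ¬ n.Prime → ∀ p : ℕ, p.Prime → p ∣ n →
      (n : ℝ) ^ (A / (2 * A - 1) + ε) ≤ p → HasWitness A n) ∧
    (∀ A θ ε : ℝ, 2 ≤ A → 0 < θ → θ ≤ 1 → 0 < ε → ∃ n₀ : ℕ, ∀ n : ℕ, n₀ ≤ n → ¬ n.Prime →
      ∀ p : ℕ, p.Prime → p ∣ n → log p ≤ (log n) ^ θ →
      (Nat.gcd (p - 1) (n - 1) : ℝ) ≤ (p : ℝ) ^ (1 - θ / A - ε) → HasWitness A n) := by
  refine ⟨?_, partB, ?_, fun A θ ε hA h1 h2 h3 => partA A θ ε hA h1 h2 h3⟩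
  · obtain ⟨N, hN⟩ := partB
    refine ⟨max N 27, fun n hn hnp p hp hpn hpl => hN n ((le_max_left _ _).trans hn) hnp p hp hpn ?_⟩
    have hn27 : 27 ≤ n := (le_max_right _ _).trans hn
    have hn0 : (0 : ℝ) < n := by exact_mod_cast (by omega : 0 < n)
    have hp0 : (0 : ℝ) < p := by exact_mod_cast hp.pos
    have hg := gcd_lt (by omega) hnp hp hpn
    -- `p ^ 3 ≥ n ^ 2`
    have h3 : (n : ℝ) ^ 2 ≤ (p : ℝ) ^ 3 := by
      have h := pow_le_pow_left₀ (rpow_nonneg hn0.le _) hpl 3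
      rw [← rpow_natCast ((n : ℝ) ^ (2 / 3 : ℝ)) 3, ← rpow_mul hn0.le] at h
      norm_num at h
      exact h
    have hp9 : (9 : ℝ) ≤ p := by
      by_contra hlt
      push Not at hlt
      have h27 : (27 : ℝ) ≤ n := by exact_mod_cast hn27
      have : (p : ℝ) ^ 3 < 9 ^ 3 := pow_lt_pow_left₀ hlt hp0.le (by norm_num)
      nlinarith
    have hg2 : ((Nat.gcd (p - 1) (n - 1) : ℝ) * p) ^ 2 ≤ (n : ℝ) ^ 2 :=
      pow_le_pow_left₀ (by positivity) hg 2
    have hgp : (Nat.gcd (p - 1) (n - 1) : ℝ) ^ 2 ≤ p := by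
      have : (Nat.gcd (p - 1) (n - 1) : ℝ) ^ 2 * (p : ℝ) ^ 2 ≤ p * (p : ℝ) ^ 2 := by
        calc (Nat.gcd (p - 1) (n - 1) : ℝ) ^ 2 * (p : ℝ) ^ 2
            = ((Nat.gcd (p - 1) (n - 1) : ℝ) * p) ^ 2 := by ring
          _ ≤ (n : ℝ) ^ 2 := hg2
          _ ≤ (p : ℝ) ^ 3 := h3
          _ = p * (p : ℝ) ^ 2 := by ring
      exact le_of_mul_le_mul_right this (by positivity)
    refine lt_of_le_of_lt hgp ?_
    have hlp : 1 < log (p : ℝ) := by
      rw [lt_log_iff_exp_lt hp0]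
      linarith [exp_one_lt_d9]
    have hllp : 0 < log (log (p : ℝ)) := log_pos hlp
    have hpos : 0 < log (p : ℝ) / (2 * log (log (p : ℝ))) := by positivity
    have := one_lt_exp_iff.2 hpos
    nlinarith
  · intro A ε hA hε
    obtain ⟨N, hN⟩ := partA A 1 ε hA one_pos le_rfl hε
    refine ⟨max N 3, fun n hn hnp p hp hpn hpl => hN n ((le_max_left _ _).trans hn) hnp p hp hpn ?_ ?_⟩
    · rw [rpow_one]
      have hn0 : 0 < n := by have := (le_max_right N 3).trans hn; omega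
      exact log_le_log (by exact_mod_cast hp.pos) (by exact_mod_cast Nat.le_of_dvd hn0 hpn)
    have hn3 : 3 ≤ n := (le_max_right _ _).trans hn
    have hn1 : (1 : ℝ) < n := by exact_mod_cast (by omega : 1 < n)
    have hn0 : (0 : ℝ) < n := by linarith
    have hp0 : (0 : ℝ) < p := by exact_mod_cast hp.pos
    have hp1 : (1 : ℝ) < p := by exact_mod_cast hp.one_lt
    have hg := gcd_lt (by omega) hnp hp hpn
    have hple : (p : ℝ) ≤ n := by exact_mod_cast Nat.le_of_dvd (by omega) hpn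
    have hA0 : (0 : ℝ) < A := by linarith
    have h2A : (0 : ℝ) < 2 * A - 1 := by linarith
    -- `n ≤ p ^ (2 - 1 / A - ε)`
    have key : (n : ℝ) ≤ (p : ℝ) ^ (2 - 1 / A - ε) := by
      have e1 : (2 - 1 / A - ε) = (2 * A - 1) / A - ε := by field_simp
      rw [e1, rpow_sub hp0]
      have h1 : ((n : ℝ) ^ (A / (2 * A - 1) + ε)) ^ ((2 * A - 1) / A) ≤ (p : ℝ) ^ ((2 * A - 1) / A) :=
        rpow_le_rpow (rpow_nonneg hn0.le _) hpl (by positivity)
      rw [← rpow_mul hn0.le] at h1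
      have e2 : (A / (2 * A - 1) + ε) * ((2 * A - 1) / A) = 1 + ε * ((2 * A - 1) / A) := by
        rw [add_mul, div_mul_div_comm, mul_comm A (2 * A - 1), div_self (by positivity)]
      rw [e2] at h1
      have h2 : (p : ℝ) ^ ε ≤ (n : ℝ) ^ ε := rpow_le_rpow hp0.le hple hε.le
      have h3 : (n : ℝ) ^ (1 + ε) ≤ (n : ℝ) ^ (1 + ε * ((2 * A - 1) / A)) := by
        apply rpow_le_rpow_of_exponent_le hn1.le
        have : (1 : ℝ) ≤ (2 * A - 1) / A := by
          rw [le_div_iff₀ hA0]; linarith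
        nlinarith
      rw [le_div_iff₀ (rpow_pos_of_pos hp0 _)]
      calc (n : ℝ) * (p : ℝ) ^ ε ≤ n * (n : ℝ) ^ ε := mul_le_mul_of_nonneg_left h2 hn0.le
        _ = (n : ℝ) ^ (1 + ε) := by rw [rpow_add hn0, rpow_one]
        _ ≤ _ := h3.trans h1
    have e3 : (2 - 1 / A - ε) = (1 - 1 / A - ε) + 1 := by ring
    rw [e3, rpow_add hp0, rpow_one] at key
    exact le_of_mul_le_mul_right (hg.trans key) hp0

end Pool.Agent.Results.MP_0b15c0_nt.LargePrimeFactor
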