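import Pool.Agent.Q122.WS.ManyC
import Pool.Agent.Q122.TF.SegsThr

set_option autoImplicit false

/-!
# The strong test for integers with several prime factors of polynomial form

Let `k ≥ 2`.  For ALL families `f₁, …, f_k` of nonconstant integer polynomials whose product is
squarefree over `ℚ` and has degree at most `D`, and ALL intervals `(B, B + T]` such that the
coefficients and `|B|` are at most `T ^ (1 / τ)` (short intervals and large coefficients are allowed),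
the following holds unconditionally for all but at most `K T ^ (1 - ρ / 2 + 1 / (2 a) + ε)` of the
integers `t` in the interval: if `f₁(t), …, f_k(t)` are different primes with product `Π`, then for
EVERY multiple `m` of `Π` at least the proportion `1 - 2 ^ (1 - k) - η` of the primes `b ≤ y`,
`b ∈ Q`, are witnesses for `m`, for all `y` with `(log Π) ^ a ≤ y ≤ T ^ c` at once; and some prime
`b ∈ Q` with `b ≤ 2 (log m) ^ a` is a witness for `m` (if `m > 0`).  Here `Q` is any set of primes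
with at least `κ y ^ ρ / log y` elements up to `y`, `a ρ > 1`.

In the range of the question, `a = 2`, with `Q` the set of all primes there are at most
`K T ^ (3 / 4 + ε)` exceptional `t`.
-/

namespace Pool.Agent.Results.MP_0b15c0_nt.SeveralPrimeValues

open Polynomial

/-- `n` fails the strong test for the base `b`: writing `n - 1 = 2 ^ j * d` with `d` odd, neither
`b ^ d = 1` nor `b ^ (2 ^ i * d) = -1` for some `i < j`, modulo `n`. -/
def IsWitness (n b : ℕ) : Prop :=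
  ∀ j d : ℕ, n - 1 = 2 ^ j * d → Odd d →
    (b : ZMod n) ^ d ≠ 1 ∧ ∀ i : ℕ, i < j → (b : ZMod n) ^ (2 ^ i * d) ≠ -1

/-- the primes `p ≤ y` in the set `Q` -/
def primesIn (Q : Set ℕ) (y : ℕ) : Set ℕ := {p | p.Prime ∧ p ≤ y ∧ p ∈ Q}

/-- at least `κ y ^ ρ / log y` primes `p ≤ y` lie in `Q`, for all large `y`, for some `κ > 0` -/
def Thick (Q : Set ℕ) (ρ : ℝ) : Prop := ∃ κ : ℝ, 0 < κ ∧ ∃ y₀ : ℕ, ∀ y : ℕ, y₀ ≤ y →
  κ * (y : ℝ) ^ ρ ≤ (primesIn Q y).ncard * Real.log y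

/-- The polynomials `f i` are nonconstant, their product is squarefree over `ℚ` and of degree at most
`D`, and all coefficients and `|B|` are at most `T ^ (1 / τ)`. -/
def Allowed {k : ℕ} (D : ℕ) (τ : ℝ) (f : Fin k → ℤ[X]) (B : ℤ) (T : ℕ) : Prop :=
  (∀ i, 1 ≤ (f i).natDegree) ∧ (∏ i, f i).natDegree ≤ D ∧
    Squarefree ((∏ i, f i).map (Int.castRingHom ℚ)) ∧
      (∀ i j, |((f i).coeff j : ℝ)| ^ τ ≤ T) ∧ |(B : ℝ)| ^ τ ≤ T

open Pool.Agent.Q122.TF in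
theorem thick_of {Q : Set ℕ} {ρ : ℝ} (hQ : Thick Q ρ) :
    ∃ κ : ℝ, 0 < κ ∧ ∃ y0 : ℕ, ∀ y : ℕ, y0 ≤ y →
      κ * (y : ℝ) ^ ρ ≤ (PQ Q y).card * Real.log y := by
  obtain ⟨κ, hκ, y0, h⟩ := hQ
  refine ⟨κ, hκ, y0, fun y hy => ?_⟩
  have := h y hy
  unfold primesIn at this
  rwa [ncard_PQ] at this

open Pool.Agent.H379R2.W in
theorem passes_of {m b : ℕ} (h : ¬ IsWitness m b) : Passes m b := by
  by_contra hp
  apply h
  exact fun j d hjd hd => ⟨fun e => hp ⟨j, d, hjd, hd, Or.inl e⟩,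
    fun i hi e => hp ⟨j, d, hjd, hd, Or.inr ⟨i, hi, e⟩⟩⟩

open scoped Classical in
open Pool.Agent.Q122.TF Pool.Agent.H379R2.W in
theorem count_wit (Q : Set ℕ) (y m : ℕ) (δ : ℝ)
    (h : (((PQ Q y).filter (fun b => Passes m b)).card : ℝ) ≤ δ * (PQ Q y).card) :
    (1 - δ) * ((primesIn Q y).ncard : ℝ) ≤
      ({b ∈ primesIn Q y | IsWitness m b}.ncard : ℝ) := by
  have e1 : (primesIn Q y).ncard = (PQ Q y).card := ncard_PQ Q y
  have h1 : (((PQ Q y).filter (fun b => ¬ Passes m b) : Finset ℕ) : Set ℕ) ⊆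
      {b ∈ primesIn Q y | IsWitness m b} := by
    intro b hb
    rw [Finset.mem_coe, Finset.mem_filter, mem_PQ] at hb
    refine ⟨hb.1, ?_⟩
    by_contra hw
    exact hb.2 (passes_of hw)
  have hfin : {b ∈ primesIn Q y | IsWitness m b}.Finite := by
    apply (Finset.finite_toSet (PQ Q y)).subset
    intro b hb
    rw [Finset.mem_coe, mem_PQ]
    exact hb.1
  have h2 := Set.ncard_le_ncard h1 hfin
  rw [Set.ncard_coe_finset] at h2
  have h3 := Finset.card_filter_add_card_filter_not (s := PQ Q y) (fun b => Passes m b)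
  have h3' : (((PQ Q y).filter (fun b => Passes m b)).card : ℝ) +
      (((PQ Q y).filter (fun b => ¬ Passes m b)).card : ℝ) = (PQ Q y).card := by
    exact_mod_cast h3
  have h2' : (((PQ Q y).filter (fun b => ¬ Passes m b)).card : ℝ) ≤
      ({b ∈ primesIn Q y | IsWitness m b}.ncard : ℝ) := by exact_mod_cast h2
  rw [e1]
  linarith

open scoped Classical in
theorem result (k D : ℕ) (a ρ τ η ε : ℝ) (Q : Set ℕ) (hk : 2 ≤ k) (hD : 1 ≤ D) (hρ : 0 < ρ)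
    (hρ1 : ρ ≤ 1) (ha : 1 < a * ρ) (hτ : 0 < τ) (hη : 0 < η) (hη2 : η < 1 / 2) (hε : 0 < ε)
    (hQ : Thick Q ρ) :
    ∃ c K : ℝ, 0 < c ∧ 0 < K ∧ ∀ (f : Fin k → ℤ[X]) (B : ℤ) (T : ℕ), 1 ≤ T → Allowed D τ f B T →
      ∃ E : Finset ℤ, (E.card : ℝ) ≤ K * (T : ℝ) ^ (1 - ρ / 2 + 1 / (2 * a) + ε) ∧
        ∀ t : ℤ, B < t → t ≤ B + T → t ∉ E → ∀ P : Fin k → ℕ, (∀ i, (P i).Prime) →
          (∀ i, (f i).eval t = P i) → Function.Injective P → ∀ m : ℕ, ∏ i, P i ∣ m →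
          (∀ y : ℕ, (Real.log ((∏ i, P i : ℕ) : ℝ)) ^ a ≤ y → (y : ℝ) ≤ (T : ℝ) ^ c →
            (1 - 2 / 2 ^ k - η) * ((primesIn Q y).ncard : ℝ) ≤
              ({b ∈ primesIn Q y | IsWitness m b}.ncard : ℝ)) ∧
          (0 < m → ∃ b ∈ Q, b.Prime ∧ (b : ℝ) ≤ 2 * (Real.log m) ^ a ∧ IsWitness m b) := by
  have ha0 : 0 < a := by
    by_contra h
    have : a * ρ ≤ 0 := mul_nonpos_of_nonpos_of_nonneg (not_lt.1 h) hρ.le
    linarith
  obtain ⟨c, K, hc, hK, h⟩ := Pool.Agent.Q122.WS.many_main k D a ρ τ η ε Q (by omega) hD hρ hρ1 ha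
    hτ hη hε (thick_of hQ)
  refine ⟨c, K, hc, hK, ?_⟩
  rintro f B T hT ⟨h1, h2, h3, h4, h5⟩
  obtain ⟨E, hE, hE'⟩ := h f B T hT h1 h2 h3 h4 h5
  refine ⟨E, hE, ?_⟩
  intro t ht1 ht2 htE P hP hfP hinj m hm
  obtain ⟨g1, g2⟩ := hE' t ht1 ht2 htE P hP hfP hinj
  have hdvd : ∀ i, P i ∣ m := fun i => (Finset.dvd_prod_of_mem P (Finset.mem_univ i)).trans hm
  have hA : ∀ y : ℕ, (Real.log ((∏ i, P i : ℕ) : ℝ)) ^ a ≤ y → (y : ℝ) ≤ (T : ℝ) ^ c →
      (1 - 2 / 2 ^ k - η) * ((primesIn Q y).ncard : ℝ) ≤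
        ({b ∈ primesIn Q y | IsWitness m b}.ncard : ℝ) := by
    intro y hy1 hy2
    obtain ⟨-, g4⟩ := g2 m hdvd y hy1 hy2
    have := count_wit Q y m _ g4
    have e : 1 - 2 / 2 ^ k - η = 1 - (2 / 2 ^ k + η) := by ring
    rw [e]
    exact this
  refine ⟨hA, fun hm0 => ?_⟩
  set Z : ℝ := (Real.log ((∏ i, P i : ℕ) : ℝ)) ^ a with hZ
  have hlogP : 0 ≤ Real.log ((∏ i, P i : ℕ) : ℝ) := Real.log_natCast_nonneg _
  have hZ0 : 0 ≤ Z := Real.rpow_nonneg hlogP _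
  have hy1 : Z ≤ (⌈Z⌉₊ : ℝ) := Nat.le_ceil Z
  have hy2 : (⌈Z⌉₊ : ℝ) ≤ (T : ℝ) ^ c := by
    have := (Nat.ceil_lt_add_one hZ0).le
    linarith
  have h6 := hA _ hy1 hy2
  obtain ⟨g3, -⟩ := g2 m hdvd _ hy1 hy2
  have e1 : (primesIn Q ⌈Z⌉₊).ncard = (Pool.Agent.Q122.TF.PQ Q ⌈Z⌉₊).card :=
    Pool.Agent.Q122.TF.ncard_PQ Q _
  have h7 : (1 : ℝ) ≤ (primesIn Q ⌈Z⌉₊).ncard := by rw [e1]; exact_mod_cast g3
  have h8 : (2 : ℝ) / 2 ^ k ≤ 1 / 2 := by
    rw [div_le_iff₀ (by positivity)]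
    have : (4 : ℝ) ≤ 2 ^ k := by
      calc (4 : ℝ) = 2 ^ 2 := by norm_num
        _ ≤ 2 ^ k := pow_le_pow_right₀ (by norm_num) hk
    linarith
  have h9 : (0 : ℝ) < ({b ∈ primesIn Q ⌈Z⌉₊ | IsWitness m b}.ncard : ℝ) := by
    refine lt_of_lt_of_le ?_ h6
    apply mul_pos <;> linarith
  have h10 : {b ∈ primesIn Q ⌈Z⌉₊ | IsWitness m b}.Nonempty := by
    apply Set.nonempty_of_ncard_ne_zero
    intro h0
    rw [h0] at h9
    simp at h9
  obtain ⟨b, ⟨hb1, hb2, hb3⟩, hb4⟩ := h10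
  refine ⟨b, hb3, hb1, ?_, hb4⟩
  have h11 : (b : ℝ) ≤ ⌈Z⌉₊ := by exact_mod_cast hb2
  have hPm : ((∏ i, P i : ℕ) : ℝ) ≤ m := by exact_mod_cast Nat.le_of_dvd hm0 hm
  have hP4 : 4 ≤ ∏ i, P i := by
    have e2 : ∏ _i : Fin k, 2 ≤ ∏ i, P i := Finset.prod_le_prod' fun i _ => (hP i).two_le
    rw [Finset.prod_const, Finset.card_univ, Fintype.card_fin] at e2
    calc 4 = 2 ^ 2 := by norm_num
      _ ≤ 2 ^ k := Nat.pow_le_pow_right (by norm_num) hk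
      _ ≤ _ := e2
  have hP4' : (4 : ℝ) ≤ ((∏ i, P i : ℕ) : ℝ) := by exact_mod_cast hP4
  have hlog1 : 1 ≤ Real.log ((∏ i, P i : ℕ) : ℝ) := by
    rw [Real.le_log_iff_exp_le (by linarith)]
    linarith [Real.exp_one_lt_d9]
  have hZ1 : 1 ≤ Z := Real.one_le_rpow hlog1 ha0.le
  have hZm : Z ≤ (Real.log (m : ℝ)) ^ a :=
    Real.rpow_le_rpow hlogP (Real.log_le_log (by linarith) hPm) ha0.le
  have := (Nat.ceil_lt_add_one hZ0).le
  linarith

end Pool.Agent.Results.MP_0b15c0_nt.SeveralPrimeValues
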