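import Mathlib
import Pool.Agent.Q84.MB.F6
import Pool.Agent.TH725.TS.GM

/-!
# The strong test for the multiples of the primes of a string, small bases quadratic residues

Let `A ≥ 2`, `0 < δ < 1` and `J ≥ 1`. There is an `η > 0`, for every `m` a `c > 0` and for every `Z` a number `C` such
that for every large `X` there is a set `S` of at most `(log X) ^ (49 / 50)` primes, all larger than `Z`, such that for
EVERY function `f` with values `1` and `-1` on the primes at least `X ^ (1 - η)` integers `n`, `X < n ≤ 3X`, satisfy: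
the interval `[n, n + C]` contains at least `m` primes, and for every prime `p` in it

* the symbol `(p / q)` is `f q` for all odd primes `q ≤ c log X` outside `S` (so one can take `p` such that all the
  small bases outside `S` are quadratic residues modulo `p`, or such that `p - 1` has no prime factor of this kind);
* for ALL composite multiples `N` of `p` and `1 ≤ j ≤ J` with `N ≤ p ^ (1 / max (1 - 1/j, 1/A) - δ)` at least the
  proportion `1 - 1 / 2 ^ j - δ` of the primes up to `2 (log N) ^ A` are witnesses for `N`.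

For `j = 1` these are all `N ≤ p ^ (A - δ)` and the proportion `1/2 - δ`; for `A = 2` (the question) and `j = 2` all
`N ≤ p ^ (2 - δ)` have the proportion `3/4 - δ`.
-/

set_option autoImplicit false

open scoped Classical

namespace Pool.Agent.Results.MP_0b15c0_nt.StringsOfPrimeFactors

open Finset Filter

/-- `n` fails the strong test for the base `b`: writing `n - 1 = 2 ^ j * d` with `d` odd, neither
`b ^ d = 1` nor `b ^ (2 ^ i * d) = -1` for some `i < j`, modulo `n`. -/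
def IsWitness (n b : ℕ) : Prop :=
  ∀ j d : ℕ, n - 1 = 2 ^ j * d → Odd d →
    (b : ZMod n) ^ d ≠ 1 ∧ ∀ i : ℕ, i < j → (b : ZMod n) ^ (2 ^ i * d) ≠ -1

/-- the primes at most `y` -/
def PrimesUpTo (y : ℝ) : Set ℕ := {p : ℕ | p.Prime ∧ (p : ℝ) ≤ y}

/-- for all multiples `N ≠ p` of `p` and `1 ≤ j ≤ J` with `N ≤ p ^ (1 / max (1 - 1/j, 1/A) - δ)` at least the
proportion `1 - 1 / 2 ^ j - δ` of the primes up to `2 (log N) ^ A` are witnesses for `N` -/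
def Good (A δ : ℝ) (J p : ℕ) : Prop :=
  ∀ j N : ℕ, 1 ≤ j → j ≤ J → p ∣ N → N ≠ p → 0 < N → (N : ℝ) ≤ (p : ℝ) ^ (1 / max (1 - 1 / (j : ℝ)) (1 / A) - δ) →
    (1 - 1 / 2 ^ j - δ) * ((PrimesUpTo (2 * (Real.log N) ^ A)).ncard : ℝ) ≤
      ({b : ℕ | b ∈ PrimesUpTo (2 * (Real.log N) ^ A) ∧ IsWitness N b}.ncard : ℝ)

/-- the exceptional primes for one `j` -/
lemma bad_one (A δ : ℝ) (hA : 2 ≤ A) (hδ : 0 < δ) (hδ1 : δ < 1) (j : ℕ) (hj : 1 ≤ j) :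
    ∀ᶠ X : ℝ in atTop, ∀ P : Finset ℕ, (∀ p ∈ P, p.Prime ∧ X < p ∧ (p : ℝ) ≤ 4 * X ∧
      ∃ N : ℕ, p ∣ N ∧ N ≠ p ∧ 0 < N ∧ (N : ℝ) ≤ (p : ℝ) ^ (1 / max (1 - 1 / (j : ℝ)) (1 / A) - δ) ∧
        ({b : ℕ | b ∈ PrimesUpTo (2 * (Real.log N) ^ A) ∧ IsWitness N b}.ncard : ℝ) <
          (1 - 1 / 2 ^ j - δ) * ((PrimesUpTo (2 * (Real.log N) ^ A)).ncard : ℝ)) →
      (P.card : ℝ) ≤ X ^ (1 - δ / (4 * A)) := by
  have hA0 : 0 < A := by linarith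
  obtain ⟨μ, hμ⟩ : ∃ μ, μ = max (1 - 1 / (j : ℝ)) (1 / A) := ⟨_, rfl⟩
  have hj0 : (0 : ℝ) < j := by exact_mod_cast hj
  have hμ0 : 1 / A ≤ μ := by rw [hμ]; exact le_max_right _ _
  have hμpos : 0 < μ := lt_of_lt_of_le (by positivity) hμ0
  have hμ1 : μ ≤ 1 := by
    rw [hμ]
    apply max_le
    · have : 0 < 1 / (j : ℝ) := by positivity
      linarith
    · rw [div_le_one hA0]; linarith
  have h2j : (1 : ℝ) / 2 ^ j ≤ 1 / 2 := by
    apply one_div_le_one_div_of_le (by norm_num)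
    calc (2 : ℝ) = 2 ^ 1 := (pow_one 2).symm
      _ ≤ 2 ^ j := pow_le_pow_right₀ (by norm_num) hj
  have h2j0 : (0 : ℝ) < 1 / 2 ^ j := by positivity
  obtain ⟨ε, hε⟩ : ∃ ε, ε = δ / (2 * A ^ 2) := ⟨_, rfl⟩
  have hε0 : 0 < ε := by rw [hε]; positivity
  have hK : ∃ K : ℝ, ∀ x : ℕ, 1 ≤ x →
      (TH725.TS.Exc (1 - 1 / 2 ^ j - δ) (fun n => TH725.TS.PrimesTo (2 * (Real.log n) ^ A)) x).Finite ∧
        ((TH725.TS.Exc (1 - 1 / 2 ^ j - δ) (fun n => TH725.TS.PrimesTo (2 * (Real.log n) ^ A)) x).ncard : ℝ) ≤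
          K * (x : ℝ) ^ (μ + ε) := by
    have e : 1 - (A - 1) / A = 1 / A := by field_simp; ring
    have hm0 : 0 < min δ (1 / 4) := lt_min hδ (by norm_num)
    have hm1 := min_le_left δ (1 / 4)
    have hm2 := min_le_right δ (1 / 4)
    have H := TH725.TS.G.countR_J j hj A A (1 / 2 ^ j + min δ (1 / 4) / 2) ε hA le_rfl
      (by linarith) hε0
    rw [e, ← hμ] at H
    exact TH725.TS.exc_primes A (1 - 1 / 2 ^ j - δ) (1 / 2 ^ j + min δ (1 / 4) / 2)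
      (μ + ε) hA (by linarith) (by linarith) (by linarith) (by linarith) H
  obtain ⟨K, hK⟩ := hK
  have ha1 : 1 ≤ 1 / μ := by rw [le_div_iff₀ hμpos]; linarith
  have haA : 1 / μ ≤ A := by
    rw [div_le_iff₀ hμpos]
    rw [div_le_iff₀ hA0] at hμ0
    linarith
  obtain ⟨a, ha⟩ : ∃ a, a = 1 / μ - δ := ⟨_, rfl⟩
  have ha0 : 0 < a := by rw [ha]; linarith
  have hmain : a * (μ + ε) < 1 - δ / (4 * A) := by
    have e1 : 1 / μ * μ = 1 := by field_simp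
    have e2 : a * ε ≤ A * ε := mul_le_mul_of_nonneg_right (by rw [ha]; linarith) hε0.le
    have e3 : A * ε = δ / (2 * A) := by rw [hε]; field_simp
    have e4 : δ * (1 / A) ≤ δ * μ := mul_le_mul_of_nonneg_left hμ0 hδ.le
    have e5 : δ / (4 * A) = (δ * (1 / A)) / 4 := by field_simp
    have e6 : δ / (2 * A) = (δ * (1 / A)) / 2 := by field_simp
    have e7 : 0 < δ * (1 / A) := by positivity
    have e8 : a * μ = 1 - δ * μ := by rw [ha, sub_mul, e1]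
    rw [mul_add, e8]
    rw [e5]
    rw [e6] at e3
    linarith
  have h1 := Pool.Agent.Q84.MB.mult_bad_nat a (μ + ε) (1 - δ / (4 * A)) ha0 (by linarith) hmain K 1
    (fun _ => {N : ℕ | 2 ≤ N ∧ ¬ N.Prime ∧
      ({b : ℕ | b ∈ PrimesUpTo (2 * (Real.log N) ^ A) ∧ IsWitness N b}.ncard : ℝ) <
          (1 - 1 / 2 ^ j - δ) * ((PrimesUpTo (2 * (Real.log N) ^ A)).ncard : ℝ)}) (fun x hx => (hK x hx).2)
  filter_upwards [h1, eventually_ge_atTop (1 : ℝ)] with X hX hX1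
  intro P hP
  refine hX P fun p hp => ?_
  obtain ⟨hpp, hXp, hp4, N, hpN, hNp, hN0, hNa, hlt⟩ := hP p hp
  refine ⟨hpp, hXp, N, hN0, hpN, ?_, ?_, ?_, hlt⟩
  · rw [← hμ, ← ha] at hNa
    refine hNa.trans (Real.rpow_le_rpow (Nat.cast_nonneg _) hp4 ha0.le)
  · exact hpp.two_le.trans (Nat.le_of_dvd hN0 hpN)
  · intro hNpr
    rcases (Nat.dvd_prime hNpr).1 hpN with h | h
    · exact hpp.one_lt.ne' h
    · exact hNp h.symm

theorem result (A δ : ℝ) (hA : 2 ≤ A) (hδ : 0 < δ) (hδ1 : δ < 1) (J : ℕ) : ∃ η : ℝ, 0 < η ∧ ∀ m : ℕ,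
    ∃ c : ℝ, 0 < c ∧ ∀ Z : ℕ, ∃ C : ℕ, ∃ X₀ : ℝ, ∀ X : ℝ, X₀ ≤ X →
    ∃ S : Finset ℕ, (∀ q ∈ S, q.Prime ∧ Z < q) ∧ (S.card : ℝ) ≤ (Real.log X) ^ (49 / 50 : ℝ) ∧
    ∀ f : ℕ → ℤ, (∀ q, f q = 1 ∨ f q = -1) →
      X ^ (1 - η) ≤ (((Icc 1 ⌊3 * X⌋₊).filter fun n : ℕ => X < n ∧
        m ≤ ((Icc n (n + C)).filter Nat.Prime).card ∧
        ∀ p ∈ Icc n (n + C), p.Prime → Good A δ J p ∧
          ∀ q : ℕ, q.Prime → q ≠ 2 → (q : ℝ) ≤ c * Real.log X → q ∉ S → jacobiSym p q = f q).card : ℝ) := by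
  have hA0 : 0 < A := by linarith
  obtain ⟨η, hη⟩ : ∃ η, η = δ / (8 * A) := ⟨_, rfl⟩
  have hη0 : 0 < η := by rw [hη]; positivity
  refine ⟨η, hη0, fun m => ?_⟩
  obtain ⟨c, hc, hmain⟩ := Pool.Agent.Q84.MB.sym_strings m η hη0
  refine ⟨c, hc, fun Z => ?_⟩
  obtain ⟨C, hC⟩ := hmain Z
  have hall : ∀ᶠ X : ℝ in atTop, ∀ j ∈ Icc 1 J, ∀ P : Finset ℕ, (∀ p ∈ P, p.Prime ∧ X < p ∧ (p : ℝ) ≤ 4 * X ∧
      ∃ N : ℕ, p ∣ N ∧ N ≠ p ∧ 0 < N ∧ (N : ℝ) ≤ (p : ℝ) ^ (1 / max (1 - 1 / (j : ℝ)) (1 / A) - δ) ∧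
        ({b : ℕ | b ∈ PrimesUpTo (2 * (Real.log N) ^ A) ∧ IsWitness N b}.ncard : ℝ) <
          (1 - 1 / 2 ^ j - δ) * ((PrimesUpTo (2 * (Real.log N) ^ A)).ncard : ℝ)) →
      (P.card : ℝ) ≤ X ^ (1 - δ / (4 * A)) :=
    (Filter.eventually_all_finset _).2 fun j hj => bad_one A δ hA hδ hδ1 j (mem_Icc.1 hj).1
  obtain ⟨X₀, hX₀⟩ := eventually_atTop.1 ((hC.and hall).and
    ((eventually_ge_atTop (1 : ℝ)).and ((tendsto_rpow_atTop hη0).eventually_ge_atTop (J : ℝ))))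
  refine ⟨C, X₀, fun X hX => ?_⟩
  obtain ⟨⟨⟨S, hS1, hS2, hS3⟩, hbad⟩, hX1, hXJ⟩ := hX₀ X hX
  have hX0 : 0 < X := by linarith
  refine ⟨S, hS1, hS2, fun f hf => ?_⟩
  have hP : (((Icc 1 ⌊4 * X⌋₊).filter fun p : ℕ => p.Prime ∧ X < p ∧ ¬ Good A δ J p).card : ℝ) ≤ X ^ (1 - η) := by
    obtain ⟨Pj, hPj⟩ : ∃ Pj : ℕ → Finset ℕ, Pj = fun j : ℕ => (Icc 1 ⌊4 * X⌋₊).filter fun p : ℕ => p.Prime ∧ X < p ∧
      ∃ N : ℕ, p ∣ N ∧ N ≠ p ∧ 0 < N ∧ (N : ℝ) ≤ (p : ℝ) ^ (1 / max (1 - 1 / (j : ℝ)) (1 / A) - δ) ∧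
        ({b : ℕ | b ∈ PrimesUpTo (2 * (Real.log N) ^ A) ∧ IsWitness N b}.ncard : ℝ) <
          (1 - 1 / 2 ^ j - δ) * ((PrimesUpTo (2 * (Real.log N) ^ A)).ncard : ℝ) := ⟨_, rfl⟩
    have hsub : ((Icc 1 ⌊4 * X⌋₊).filter fun p : ℕ => p.Prime ∧ X < p ∧ ¬ Good A δ J p) ⊆ (Icc 1 J).biUnion Pj := by
      intro p hp
      rw [mem_filter] at hp
      obtain ⟨h1, h2, h3, h4⟩ := hp
      unfold Good at h4
      push Not at h4
      obtain ⟨j, N, hj1, hjJ, hpN, hNp, hN0, hNa, hlt⟩ := h4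
      rw [mem_biUnion]
      refine ⟨j, mem_Icc.2 ⟨hj1, hjJ⟩, ?_⟩
      rw [hPj, mem_filter]
      exact ⟨h1, h2, h3, N, hpN, hNp, hN0, hNa, hlt⟩
    have h1 : ∀ j ∈ Icc 1 J, ((Pj j).card : ℝ) ≤ X ^ (1 - δ / (4 * A)) := by
      intro j hj
      refine hbad j hj _ fun p hp => ?_
      rw [hPj, mem_filter, mem_Icc] at hp
      obtain ⟨⟨-, h1⟩, h2, h3, h4⟩ := hp
      exact ⟨h2, h3, (Nat.le_floor_iff (by linarith)).1 h1, h4⟩
    calc (((Icc 1 ⌊4 * X⌋₊).filter fun p : ℕ => p.Prime ∧ X < p ∧ ¬ Good A δ J p).card : ℝ)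
        ≤ (((Icc 1 J).biUnion Pj).card : ℝ) := by exact_mod_cast card_le_card hsub
      _ ≤ ((∑ j ∈ Icc 1 J, (Pj j).card : ℕ) : ℝ) := by exact_mod_cast card_biUnion_le
      _ = ∑ j ∈ Icc 1 J, ((Pj j).card : ℝ) := by push_cast; rfl
      _ ≤ ∑ _j ∈ Icc 1 J, X ^ (1 - δ / (4 * A)) := sum_le_sum h1
      _ = (J : ℝ) * X ^ (1 - δ / (4 * A)) := by
          rw [sum_const, Nat.card_Icc, nsmul_eq_mul, Nat.add_sub_cancel]
      _ ≤ X ^ η * X ^ (1 - δ / (4 * A)) := mul_le_mul_of_nonneg_right hXJ (by positivity)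
      _ = X ^ (1 - η) := by
          rw [← Real.rpow_add hX0]
          congr 1
          rw [hη]
          field_simp
          ring
  have h3 := hS3 f hf (Good A δ J) hP
  refine h3.trans ?_
  have hsub : ((Icc 1 ⌊3 * X⌋₊).filter fun n : ℕ => X < n ∧
        Pool.Agent.Q84.MB.SymStr m C (c * Real.log X) S f (Good A δ J) n) ⊆
      ((Icc 1 ⌊3 * X⌋₊).filter fun n : ℕ => X < n ∧
        m ≤ ((Icc n (n + C)).filter Nat.Prime).card ∧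
        ∀ p ∈ Icc n (n + C), p.Prime → Good A δ J p ∧
          ∀ q : ℕ, q.Prime → q ≠ 2 → (q : ℝ) ≤ c * Real.log X → q ∉ S → jacobiSym p q = f q) := by
    intro n hn
    rw [mem_filter] at hn ⊢
    exact hn
  exact_mod_cast card_le_card hsub

end Pool.Agent.Results.MP_0b15c0_nt.StringsOfPrimeFactors
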